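import Mathlib
import Pool.Agent.H38.BallDefs
import Pool.Agent.H38.BallPack

/-!
Question Q2 has a negative answer: for every `k ≥ 1000` some packing of `(2k³+k)/3` unit balls in
Euclidean 3-space has more than `(4/3)(k-2)(k-1)k` touching quadruples.
-/

namespace Pool.Agent.Results.MP_b59a08_co.QuadruplesFail

open Pool.Agent.H38.Ball

/-- Here `E3 = EuclideanSpace ℝ (Fin 3)`, `IsUnitBallPacking P` says that the closed unit balls
centred at distinct points of the finite set `P` have disjoint interiors, and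
`touchingSets 4 P` is the set of the 4-element subsets of `P` whose points have pairwise
distance exactly 2. -/
theorem result : ∀ k : ℕ, 1000 ≤ k →
    ∃ P : Finset (EuclideanSpace ℝ (Fin 3)), IsUnitBallPacking P ∧
      (P.card : ℝ) = (2 * (k : ℝ) ^ 3 + k) / 3 ∧
      4 / 3 * ((k : ℝ) - 2) * (k - 1) * k < ((touchingSets 4 P).ncard : ℝ) := by
  intro k hk
  obtain ⟨P, h1, h2, -, h3⟩ := main k hk
  refine ⟨P, h1, ?_, ?_⟩
  · have h2' : (3 : ℝ) * (P.card : ℝ) = 2 * (k : ℝ) ^ 3 + k := by exact_mod_cast h2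
    linarith
  · have h3' : (4 : ℝ) * ((k : ℝ) - 2) * (k - 1) * k < 3 * ((touchingSets 4 P).ncard : ℝ) := by
      exact_mod_cast h3
    linarith

end Pool.Agent.Results.MP_b59a08_co.QuadruplesFail
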